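import Mathlib
import Pool.Agent.H658_UB.CompactMain

set_option autoImplicit false

/-!
If the real or complex Banach spaces `X` and `Y` have unique unconditional bases up to permutation
and every operator on `Y` that factors through `X` is compact, then `X ⊕ Y` has a unique
unconditional basis up to permutation.
-/

namespace Pool.Agent.Results.MP_eb6f89_an.CompactSplit

open Pool.Agent.H658_UB

theorem result (𝕜 : Type*) [RCLike 𝕜] (X Y : Type*) [NormedAddCommGroup X] [NormedSpace 𝕜 X]
    [CompleteSpace X] [NormedAddCommGroup Y] [NormedSpace 𝕜 Y] [CompleteSpace Y]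
    (hX : HasUTAP 𝕜 X) (hY : HasUTAP 𝕜 Y)
    (hc : ∀ (U : Y →L[𝕜] X) (V : X →L[𝕜] Y), IsCompactOperator (fun y => V (U y))) :
    HasUTAP 𝕜 (X × Y) :=
  prod_of_compact hX hY hc

end Pool.Agent.Results.MP_eb6f89_an.CompactSplit
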