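import Mathlib
import Pool.Agent.H658_UB.Spaces

set_option autoImplicit false

/-!
For every real or complex Banach space `X` with a unique unconditional basis up to permutation
and every Banach space `Y` isomorphic to `c_0`, `ℓ_1` or `ℓ_2`, the direct sum of `X` and `Y`
has a unique unconditional basis up to permutation.
-/

namespace Pool.Agent.Results.MP_eb6f89_an.SumWithClassical

open Pool.Agent.H658_UB
open scoped ZeroAtInfty

theorem result (𝕜 : Type*) [RCLike 𝕜] (X : Type*) [NormedAddCommGroup X] [NormedSpace 𝕜 X]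
    [CompleteSpace X] (Y : Type*) [NormedAddCommGroup Y] [NormedSpace 𝕜 Y]
    (hX : HasUTAP 𝕜 X)
    (hY : Nonempty (Y ≃L[𝕜] C₀(ℕ, 𝕜)) ∨ Nonempty (Y ≃L[𝕜] lp (fun _ : ℕ => 𝕜) 1) ∨
      Nonempty (Y ≃L[𝕜] lp (fun _ : ℕ => 𝕜) 2)) :
    HasUTAP 𝕜 (X × Y) := by
  rcases hY with ⟨⟨T⟩⟩ | ⟨⟨T⟩⟩ | ⟨⟨T⟩⟩
  · exact (prod_c0 hX).map ((ContinuousLinearEquiv.refl 𝕜 X).prodCongr T.symm)
  · exact (prod_l1 hX).map ((ContinuousLinearEquiv.refl 𝕜 X).prodCongr T.symm)
  · exact (prod_l2 hX).map ((ContinuousLinearEquiv.refl 𝕜 X).prodCongr T.symm)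

end Pool.Agent.Results.MP_eb6f89_an.SumWithClassical
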